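import Pool.Agent.Lib_2b501e.Final

/-!
# Convex bodies approximable by monostable polyhedra: full characterization

A convex body `K` in three-space is a limit of monostable convex polyhedra if and only if, for
every `t`, the set of boundary points of `K` at distance less than `t` from the center of mass of
`K` is connected (or empty).
-/

open MP2b501e

namespace Pool.Agent.Results.MP_2b501e_co.Characterization

/-- Characterization of the family of approximable convex bodies. -/
theorem result (K : Set E3) (hK : IsConvexBody K) :
    Approximable K ↔
      ∀ t : ℝ, IsPreconnected {x | x ∈ frontier K ∧ dist x (centroid K) < t} :=
  MP2b501e.main hK

end Pool.Agent.Results.MP_2b501e_co.Characterization
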